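import Pool.Agent.R483.KB.Final

/-!
MP_8220a0_an: Kane's bound for Chebyshev-type trigonometric quadrature is not sharp: there is a
`2π`-periodic weight, nonzero almost everywhere, with `liminf N̄_W(n) / K_W(n) = 0`.
-/

namespace Pool.Agent.Results.MP_8220a0_an.KaneNotSharp

open Real MeasureTheory Filter Topology Pool.Agent.R483.KB

theorem freq : ∀ ε > 0, ∀ n₀ : ℕ, ∃ n ≥ n₀, {M | ∀ N ≥ M, Quad (WW cc) n N}.Nonempty ∧
    (Nbar (WW cc) n : ℝ) ≤ ε * (Kane (WW cc) n : ℝ) := by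
  intro ε hε n₀
  obtain ⟨j1, hj1⟩ := exists_nat_one_div_lt hε
  set j := max j1 n₀ with hj
  obtain ⟨h1, h2⟩ := main_stage j
  refine ⟨nn j (cc j), (le_max_right j1 n₀).trans (nn_spec j (cc_pos j)).1, ⟨_, h1⟩, ?_⟩
  have h3 : Nbar (WW cc) (nn j (cc j)) ≤ ⌈64 * ((j : ℝ) + 1) * (nn j (cc j) : ℝ) ^ 3 / cc j⌉₊ :=
    Nat.sInf_le h1
  have h4 : (Nbar (WW cc) (nn j (cc j)) : ℝ) ≤
      (⌈64 * ((j : ℝ) + 1) * (nn j (cc j) : ℝ) ^ 3 / cc j⌉₊ : ℝ) := by exact_mod_cast h3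
  refine h4.trans (h2.trans ?_)
  apply mul_le_mul_of_nonneg_right _ (Nat.cast_nonneg _)
  refine le_trans ?_ hj1.le
  apply one_div_le_one_div_of_le (by positivity)
  have : (j1 : ℝ) ≤ j := by exact_mod_cast le_max_left j1 n₀
  linarith

/-- **Main theorem.** There is a `2π`-periodic weight function `W`, nonzero almost everywhere, such
that Kane's supremum is finite for every `n` and, for every `ε > 0`, there are arbitrarily large `n`
with `N̄_W(n) ≤ ε K_W(n)`; in particular `liminf N̄_W(n) / K_W(n) = 0` and there is no constant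
`c > 0` with `N̄_W(n) ≥ c K_W(n)` for all large `n`. -/
theorem result : ∃ W : ℝ → ℝ, IsWeight W ∧ (∀ᵐ θ, W θ ≠ 0) ∧
    (∀ n, BddAbove (KaneRatios W n)) ∧
    (∀ ε > 0, ∀ n₀ : ℕ, ∃ n ≥ n₀, {M | ∀ N ≥ M, Quad W n N}.Nonempty ∧
      (Nbar W n : ℝ) ≤ ε * (Kane W n : ℝ)) ∧
    liminf (fun n => (Nbar W n : ℝ) / (Kane W n : ℝ)) atTop = 0 ∧
    ¬ ∃ c > 0, ∀ᶠ n in atTop, c * (Kane W n : ℝ) ≤ (Nbar W n : ℝ) := by
  have hK : ∀ n, (0 : ℝ) < (Kane (WW cc) n : ℝ) := by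
    intro n
    unfold Kane
    positivity
  have hfr : ∀ ε > 0, ∃ᶠ n in atTop, (Nbar (WW cc) n : ℝ) / (Kane (WW cc) n : ℝ) ≤ ε := by
    intro ε hε
    rw [frequently_atTop]
    intro n₀
    obtain ⟨n, hn, _, h⟩ := freq ε hε n₀
    exact ⟨n, hn, by rw [div_le_iff₀ (hK n)]; exact h⟩
  have h0 : ∀ n, (0 : ℝ) ≤ (Nbar (WW cc) n : ℝ) / (Kane (WW cc) n : ℝ) :=
    fun n => div_nonneg (Nat.cast_nonneg _) (Nat.cast_nonneg _)
  have hb : IsBoundedUnder (· ≥ ·) atTop (fun n => (Nbar (WW cc) n : ℝ) / (Kane (WW cc) n : ℝ)) :=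
    ⟨0, by simp only [ge_iff_le, eventually_map]; exact Eventually.of_forall h0⟩
  have hcb : IsCoboundedUnder (· ≥ ·) atTop
      (fun n => (Nbar (WW cc) n : ℝ) / (Kane (WW cc) n : ℝ)) :=
    IsCoboundedUnder.of_frequently_le (hfr 1 one_pos)
  refine ⟨WW cc, isWeight, WW_ae cc_good, kane_bdd cc_good, freq, ?_, ?_⟩
  · apply le_antisymm
    · apply le_of_forall_pos_le_add
      intro ε hε
      rw [zero_add]
      exact liminf_le_of_frequently_le (hfr ε hε) hb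
    · exact le_liminf_of_le hcb (Eventually.of_forall h0)
  · rintro ⟨c, hc, hev⟩
    obtain ⟨n, hn1, hn2⟩ := ((hfr (c / 2) (by positivity)).and_eventually hev).exists
    rw [div_le_iff₀ (hK n)] at hn1
    have := hK n
    nlinarith

end Pool.Agent.Results.MP_8220a0_an.KaneNotSharp
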